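import Pool.Agent.Helper19.PF.Inst
import Pool.Agent.Helper28.EF.Final

set_option autoImplicit false

open Polynomial

namespace Pool.Agent.Results.MP_d88658_nt.LowerBounds

/-- In degree `d ≥ 3` any admissible constant `C₁` is at least `7` (`d = 3`), `5` (`d = 4`),
`4` (`d ≥ 5`). -/
theorem result :
    ∀ d : ℕ, 3 ≤ d → ∀ C₁ C₂ : ℝ, (∀ f : Polynomial ℤ, f.natDegree = d →
      (f.map (Int.castRingHom ℚ)).Separable →
      ∀ x y : ℤ, y ^ 2 = f.eval x →
        Real.log (max |(x : ℝ)| 1) ≤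
          C₁ * Real.log (max ((f.support.sup (fun i => (f.coeff i).natAbs) : ℕ) : ℝ) 1) + C₂) →
      (if d = 3 then 7 else if d = 4 then 5 else 4) ≤ C₁ := by
  intro d hd C₁ C₂ hbound
  split_ifs with h3 h4
  · subst h3
    exact Pool.Agent.Helper19.PF.cubic C₁ C₂ (fun f _ h1 h2 x y h => hbound f h1 h2 x y h)
  · subst h4
    exact Pool.Agent.Helper19.PF.quartic C₁ C₂ (fun f _ h1 h2 x y h => hbound f h1 h2 x y h)
  · exact Pool.Agent.Helper28.EF.main d hd C₁ C₂ hbound

end Pool.Agent.Results.MP_d88658_nt.LowerBounds
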